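import Pool.Agent.Q139.TC.TPt
import Pool.Agent.Q139.TC.TSum
import Pool.Agent.Q139.TC.TEdge
import Pool.Agent.Q139.TC.TWall
import Pool.Agent.Q139.TC.TDir
import Pool.Agent.Q139.TC.TExit
import Pool.Agent.Q139.TC.TTwo
import Pool.Agent.Q139.TC.TUnion
import Pool.Agent.Q139.TC.TStar
import Pool.Agent.Q139.TC.TOpen
import Pool.Agent.Q139.TC.TA1
import Pool.Agent.Q139.TC.TA2
import Pool.Agent.Q139.TC.TA3
import Pool.Agent.Q139.TC.TAU
import Pool.Agent.Q139.TC.TN1
import Pool.Agent.Q139.TC.TN2
import Pool.Agent.Q139.TC.TM1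
import Pool.Agent.Q139.TC.TM2
import Pool.Agent.Q139.TC.TM3
import Pool.Agent.Q139.TC.TM4
import Pool.Agent.Q139.TC.TCov
import Pool.Agent.Q139.TC.TSC
import Pool.Agent.Q139.TC.TPunct
import Pool.Agent.Q139.TC.TPlane
import Pool.Agent.Q139.TC.TPl

/-!
# A simply connected two-convex open set in `ℝ⁵` with a planar section which is a punctured plane

Write the points of `ℝ⁵` as `(x, w)` with `x ∈ ℝ³`, `w ∈ ℝ²`, and let `ℓ₀, ℓ₁, ℓ₂` be three linear
forms on `ℝ²`, any two independent, with sum `0`.  The set `Ω` is the complement of the three walls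
`{x_i = 0, ℓ_i(w) ≤ 0}` (hyperplanes with a convex open window removed) and of the octant
`{w = 0, x₀, x₁, x₂ ≥ 0}`, whose boundary lies in the walls.  It is two-convex.  It is simply
connected: a loop around the octant can be pulled through the windows, which meet pairwise but have
no common point (this is the point where the dimension `5` enters, by Helly's theorem on a line the
same construction fails in `ℝ⁴`).  The section by the plane `x = (1, 1, 1)` is `{w ≠ 0}`.
-/

set_option autoImplicit false

namespace Pool.Agent.Results.MP_a4ef96_gt.FiveDimensional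

/-- `Ω` is two-convex: if three of the four faces of a (nondegenerate) tetrahedron are contained in
`Ω`, then so is the tetrahedron.  The tetrahedron is the convex hull of the four affinely
independent points `v 0, …, v 3`, the face opposite to `v j` is the convex hull of the other three,
and the three faces are those opposite to `v j`, `j ≠ j₀`. -/
def TwoConvex {V : Type} [AddCommGroup V] [Module ℝ V] (Ω : Set V) : Prop :=
  ∀ v : Fin 4 → V, AffineIndependent ℝ v → ∀ j₀ : Fin 4,
    (∀ j, j ≠ j₀ → convexHull ℝ (v '' {j}ᶜ) ⊆ Ω) → convexHull ℝ (Set.range v) ⊆ Ω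

open Pool.Agent.Q139

/-- There are an open, simply connected, two-convex set `Ω ⊆ ℝ⁵` and an affine plane `P` such that
`Ω ∩ P` is path connected (so it is its only connected component) and not simply connected. -/
theorem result : ∃ Ω : Set (EuclideanSpace ℝ (Fin 5)), IsOpen Ω ∧ IsSimplyConnected Ω ∧
    TwoConvex Ω ∧ ∃ P : AffineSubspace ℝ (EuclideanSpace ℝ (Fin 5)),
      Module.finrank ℝ P.direction = 2 ∧ IsPathConnected (Ω ∩ (P : Set _)) ∧
        ¬ IsSimplyConnected (Ω ∩ (P : Set _)) := by
  obtain ⟨P, hP, hPr⟩ := TC.TPlane.main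
  obtain ⟨hemb, hpl⟩ := TC.TPl.main
  have himg : TC.Om ∩ (P : Set TC.E) = TC.pl '' {0}ᶜ := by
    rw [hPr]
    ext p
    constructor
    · rintro ⟨h, z, rfl⟩
      exact ⟨z, by simpa using (hpl z).1 h, rfl⟩
    · rintro ⟨z, hz, rfl⟩
      exact ⟨(hpl z).2 (by simpa using hz), z, rfl⟩
  have hpc : IsPathConnected ({0}ᶜ : Set ℂ) :=
    isPathConnected_compl_singleton_of_one_lt_rank (by simp) 0
  have hOpen : TC.TOpen := TC.TOpen.main
  have hUnion : TC.TUnion := TC.TUnion.main
  have hStar : TC.TStar := TC.TStar.main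
  have hWall : TC.TWall := TC.TWall.main TC.TEdge.main
  have hTwo : TC.TTwo := TC.TTwo.main hWall TC.TDir.main TC.TExit.main
  have hAU : TC.TAU := TC.TAU.main hUnion hStar hOpen (TC.TA1.main TC.TPt.main) TC.TA2.main TC.TA3.main
  have hM4 : TC.TM4 := TC.TM4.main TC.TM1.main TC.TM2.main
  have hSC : TC.TSC := TC.TSC.main hUnion hStar hOpen hAU TC.TN1.main TC.TN2.main TC.TM3.main hM4
    TC.TCov.main
  refine ⟨TC.Om, hOpen.1, hSC, hTwo, P, hP, ?_, ?_⟩
  · rw [himg]
    exact hpc.image hemb.continuous
  · rw [himg, hemb.isSimplyConnected_image]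
    exact TC.TPunct.main

end Pool.Agent.Results.MP_a4ef96_gt.FiveDimensional
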